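import Pool.Agent.U841.TI.Pure

/-!
# Unital C*-algebras of type I have finite-dimensional representations (end of the proof)
-/

set_option autoImplicit false

open scoped ComplexOrder InnerProductSpace

noncomputable section

namespace Pool.Agent.U841.TI

open Pool.Agent.W658.Irrep Pool.Agent.TH496.EIirr Pool.Agent.W658.TypeI

section irr

variable {C K : Type} [CStarAlgebra C] [NormedAddCommGroup K]
  [InnerProductSpace ℂ K] [CompleteSpace K] (ρ : C →⋆ₙₐ[ℂ] (K →L[ℂ] K))

/-- trivial commutant implies irreducible -/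
lemma irr_of_scalar (hρ : ρ 1 = 1) (hK : (1 : K →L[ℂ] K) ≠ 0)
    (h : ∀ T : K →L[ℂ] K, (∀ a, T * ρ a = ρ a * T) → ∃ t : ℂ, T = t • (1 : K →L[ℂ] K)) :
    IsIrreducible ρ := by
  refine ⟨?_, ?_⟩
  · intro h0
    rw [h0] at hρ
    exact hK hρ.symm
  · intro U hU hinv
    haveI : IsClosed (U : Set K) := hU
    haveI : CompleteSpace U := hU.completeSpace_coe
    have hinv' : ∀ b, ∀ x ∈ Uᗮ, ρ b x ∈ Uᗮ := by
      intro b x hx
      rw [Submodule.mem_orthogonal] at hx ⊢
      intro u hu
      have h1 : ⟪ρ (star b) u, x⟫_ℂ = 0 := hx _ (hinv _ _ hu)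
      rw [map_star, ContinuousLinearMap.star_eq_adjoint,
        ContinuousLinearMap.adjoint_inner_left] at h1
      exact h1
    obtain ⟨t, ht⟩ := h U.starProjection (by
      intro a
      ext x
      show U.starProjection (ρ a x) = ρ a (U.starProjection x)
      have hx : x = U.starProjection x + Uᗮ.starProjection x :=
        (U.starProjection_add_starProjection_orthogonal x).symm
      conv_lhs => rw [hx, map_add, map_add]
      rw [U.starProjection_eq_self_iff.2 (hinv a _ (U.starProjection_apply_mem x)),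
        (U.starProjection_apply_eq_zero_iff).2 (hinv' a _ (Uᗮ.starProjection_apply_mem x)),
        add_zero])
    by_cases ht0 : t = 0
    · left
      rw [Submodule.eq_bot_iff]
      intro x hx
      have h1 := U.starProjection_eq_self_iff.2 hx
      rw [ht, ht0, zero_smul] at h1
      exact h1.symm
    · right
      rw [Submodule.eq_top_iff']
      intro x
      have h1 := U.starProjection_apply_mem (t⁻¹ • x)
      rw [ht] at h1
      have h2 : (t • (1 : K →L[ℂ] K)) (t⁻¹ • x) = x := by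
        show t • (t⁻¹ • x) = x
        rw [smul_smul, mul_inv_cancel₀ ht0, one_smul]
      rwa [h2] at h1

end irr

/-- **A nonzero unital C*-algebra of type I has a nonzero finite-dimensional representation.** -/
theorem finite_rep {C : Type} [CStarAlgebra C] [Nontrivial C] (hI : IsTypeI C) :
    ∃ (K : Type) (_ : NormedAddCommGroup K) (_ : InnerProductSpace ℂ K) (_ : CompleteSpace K)
      (ρ : C →⋆ₙₐ[ℂ] (K →L[ℂ] K)), ρ 1 = 1 ∧ FiniteDimensional ℂ K ∧ Nontrivial K := by
  obtain ⟨M, hM, hmax⟩ := exists_max (C := C)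
  obtain ⟨f0, hf0, hf0M⟩ := exists_state hM
  obtain ⟨φ, hφ⟩ := (StM_compact M).extremePoints_nonempty ⟨f0, hf0, hf0M⟩
  have hφ' := extreme_StM hM hφ
  obtain ⟨K, i1, i2, i3, ρ, ξ, hρ1, hξ, hdense, hφξ⟩ := rep_of hφ'
  have hscal := scalar_all ρ (fun T hTa hT0 hT1 =>
    scalar_pos ρ ξ hφ' hρ1 hξ hdense hφξ T hTa hT0 hT1)
  have hξ0 : ξ ≠ 0 := by
    intro h
    rw [h, norm_zero] at hξ
    exact zero_ne_one hξ
  have hK : (1 : K →L[ℂ] K) ≠ 0 := by
    intro h
    apply hξ0
    exact congrArg (fun S : K →L[ℂ] K => S ξ) h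
  have hirr := irr_of_scalar ρ hρ1 hK hscal
  have hφM : ∀ m ∈ M, φ m = 0 := (mem_extremePoints.mp hφ).1.2
  -- `M` is contained in the kernel
  have hker : ∀ m ∈ M, ρ m = 0 := by
    intro m hm
    have h1 : ∀ a : C, ρ m (ρ a ξ) = 0 := by
      intro a
      have h3 : φ (star (m * a) * (m * a)) = 0 :=
        hφM _ (hM.left _ _ (hM.right _ _ hm))
      rw [hφξ, map_mul, map_star, ContinuousLinearMap.star_eq_adjoint] at h3
      have h4 : ⟪ρ (m * a) ξ, ρ (m * a) ξ⟫_ℂ = 0 := by
        rw [← ContinuousLinearMap.adjoint_inner_right]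
        exact h3
      have h5 : ρ (m * a) ξ = 0 := inner_self_eq_zero.1 h4
      rw [map_mul] at h5
      exact h5
    have h2 : ρ (star m) = 0 := by
      ext y
      apply hdense
      intro a
      have h6 : ⟪ρ (star m) y, ρ a ξ⟫_ℂ = ⟪y, ρ m (ρ a ξ)⟫_ℂ := by
        rw [map_star, ContinuousLinearMap.star_eq_adjoint,
          ContinuousLinearMap.adjoint_inner_left]
      rw [h6, h1 a, inner_zero_right]
      exact (inner_zero_left _).symm
    rw [map_star] at h2
    exact star_eq_zero.1 h2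
  -- the elements with compact image
  have hcomp : IsCompactOperator (ρ 1) := by
    by_contra hnot
    have hJ : PI {d : C | IsCompactOperator (ρ d)} := by
      refine ⟨?_, ?_, ?_, ?_, hnot⟩
      · show IsCompactOperator (ρ 0)
        rw [map_zero]
        exact isCompactOperator_zero
      · intro x hx y hy
        show IsCompactOperator (ρ (x + y))
        rw [map_add]
        exact IsCompactOperator.add hx hy
      · intro a x hx
        show IsCompactOperator (ρ (a * x))
        rw [map_mul]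
        exact IsCompactOperator.clm_comp hx (ρ a)
      · intro a x hx
        show IsCompactOperator (ρ (x * a))
        rw [map_mul]
        exact IsCompactOperator.comp_clm hx (ρ a)
    have hsub := hmax _ hJ (fun m hm => by
      show IsCompactOperator (ρ m)
      rw [hker m hm]
      exact isCompactOperator_zero)
    let T : K →L[ℂ] K := (innerSL ℂ ξ).smulRight ξ
    have hT : IsCompactOperator T := by
      have h1 : IsCompactOperator (innerSL ℂ ξ) :=
        isCompactOperator_of_locallyCompactSpace_dom _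
      exact IsCompactOperator.clm_comp h1 ((1 : ℂ →L[ℂ] ℂ).smulRight ξ)
    obtain ⟨d, hd⟩ := hI K ρ hirr T hT
    have h1 : d ∈ M := hsub (by
      show IsCompactOperator (ρ d)
      rw [hd]
      exact hT)
    have h2 : T = 0 := by rw [← hd, hker d h1]
    have h3 : T ξ = ξ := by
      show ⟪ξ, ξ⟫_ℂ • ξ = ξ
      rw [inner_self_eq_norm_sq_to_K, hξ]
      simp
    rw [h2] at h3
    exact hξ0 h3.symm
  refine ⟨K, i1, i2, i3, ρ, hρ1, ?_, ⟨ξ, 0, hξ0⟩⟩
  rw [hρ1] at hcomp
  exact FiniteDimensional.of_isCompactOperator_id hcomp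

/-- **No such algebra contains approximate Cuntz isometries.** -/
theorem no_cuntz {C : Type} [CStarAlgebra C] [Nontrivial C] (hI : IsTypeI C) (a b : C)
    (ha : ‖star a * a - 1‖ ≤ 1 / 9) (hb : ‖star b * b - 1‖ ≤ 1 / 9)
    (hab : ‖a * star a + b * star b - 1‖ ≤ 1 / 4) : False := by
  obtain ⟨K, i1, i2, i3, ρ, hρ1, hfin, hnt⟩ := finite_rep hI
  have hc : ∀ x, ‖ρ x‖ ≤ ‖x‖ := fun x => NonUnitalStarAlgHom.norm_apply_le ρ x
  have htr : ∀ T : K →L[ℂ] K, ‖LinearMap.trace ℂ K (T : K →ₗ[ℂ] K)‖ ≤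
      Module.finrank ℂ K * ‖T‖ := by
    intro T
    rw [LinearMap.trace_eq_sum_inner _ (stdOrthonormalBasis ℂ K)]
    refine (norm_sum_le _ _).trans ?_
    have h1 : ∀ i ∈ (Finset.univ : Finset (Fin (Module.finrank ℂ K))),
        ‖⟪stdOrthonormalBasis ℂ K i, (T : K →ₗ[ℂ] K) (stdOrthonormalBasis ℂ K i)⟫_ℂ‖ ≤ ‖T‖ := by
      intro i _
      refine (norm_inner_le_norm _ _).trans ?_
      have h2 := T.le_opNorm (stdOrthonormalBasis ℂ K i)
      have h3 : ‖stdOrthonormalBasis ℂ K i‖ = 1 := (stdOrthonormalBasis ℂ K).norm_eq_one i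
      rw [h3, mul_one] at h2
      rw [h3, one_mul]
      exact h2
    refine (Finset.sum_le_sum h1).trans ?_
    simp
  obtain ⟨n, hn⟩ : ∃ n : ℝ, n = Module.finrank ℂ K := ⟨_, rfl⟩
  have hn0 : 0 < n := by
    rw [hn]
    exact_mod_cast Module.finrank_pos
  rw [← hn] at htr
  let tr : (K →L[ℂ] K) → ℂ := fun T => LinearMap.trace ℂ K (T : K →ₗ[ℂ] K)
  have tr_add : ∀ S T, tr (S + T) = tr S + tr T := fun S T => by
    show LinearMap.trace ℂ K ((S : K →ₗ[ℂ] K) + (T : K →ₗ[ℂ] K)) = _
    rw [map_add]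
  have tr_sub : ∀ S T, tr (S - T) = tr S - tr T := fun S T => by
    show LinearMap.trace ℂ K ((S : K →ₗ[ℂ] K) - (T : K →ₗ[ℂ] K)) = _
    rw [map_sub]
  have tr_comm : ∀ S T, tr (S * T) = tr (T * S) := fun S T => by
    show LinearMap.trace ℂ K ((S : K →ₗ[ℂ] K) * (T : K →ₗ[ℂ] K)) =
      LinearMap.trace ℂ K ((T : K →ₗ[ℂ] K) * (S : K →ₗ[ℂ] K))
    rw [LinearMap.trace_mul_comm]
  have tr_one : tr 1 = n := by
    show LinearMap.trace ℂ K (1 : K →ₗ[ℂ] K) = n
    rw [LinearMap.trace_one, hn]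
    simp
  have key : ∀ x : C, ∀ e : ℝ, ‖x - 1‖ ≤ e → ‖tr (ρ x) - n‖ ≤ n * e := by
    intro x e hx
    rw [← tr_one, ← hρ1, ← tr_sub, ← map_sub]
    exact (htr _).trans (mul_le_mul_of_nonneg_left ((hc _).trans hx) hn0.le)
  have k1 := key _ _ ha
  have k2 := key _ _ hb
  have k3 := key _ _ hab
  have e1 : tr (ρ (a * star a + b * star b)) = tr (ρ (star a * a)) + tr (ρ (star b * b)) := by
    rw [map_add, tr_add, map_mul, map_mul, tr_comm, tr_comm (ρ b), ← map_mul, ← map_mul]
  rw [e1] at k3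
  have h4 : (n : ℂ) = (tr (ρ (star a * a)) + tr (ρ (star b * b)) - n) -
      (tr (ρ (star a * a)) - n) - (tr (ρ (star b * b)) - n) := by ring
  have h5 : n ≤ n * (1 / 4) + n * (1 / 9) + n * (1 / 9) := by
    calc n = ‖(n : ℂ)‖ := by rw [Complex.norm_real, Real.norm_of_nonneg hn0.le]
      _ = ‖(tr (ρ (star a * a)) + tr (ρ (star b * b)) - n) -
          (tr (ρ (star a * a)) - n) - (tr (ρ (star b * b)) - n)‖ := by rw [← h4]
      _ ≤ ‖(tr (ρ (star a * a)) + tr (ρ (star b * b)) - n) -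
          (tr (ρ (star a * a)) - n)‖ + ‖(tr (ρ (star b * b)) - n)‖ := norm_sub_le _ _
      _ ≤ ‖tr (ρ (star a * a)) + tr (ρ (star b * b)) - n‖ + ‖tr (ρ (star a * a)) - n‖ +
          ‖(tr (ρ (star b * b)) - n)‖ := by
        have := norm_sub_le (tr (ρ (star a * a)) + tr (ρ (star b * b)) - n)
          (tr (ρ (star a * a)) - n)
        linarith
      _ ≤ _ := by linarith
  linarith

end Pool.Agent.U841.TI
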