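import Pool.Agent.W658.Cone
import Pool.Agent.U841.TI.Fin

/-!
# The unitised cone over the Cuntz algebra is stably finite and not locally of type I
-/

set_option autoImplicit false

open scoped InnerProductSpace CStarAlgebra ComplexOrder
open Filter Topology

noncomputable section

namespace Pool.Agent.U841.TI

open Pool.Agent.W658.Cone Pool.Agent.W658.TypeI

/-! ### Stable finiteness -/

/-- the sum of the norms of the entries -/
def N {n : ℕ} (A : Matrix (Fin n) (Fin n) BH) : ℝ := ∑ i, ∑ j, ‖A i j‖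

lemma N_nonneg {n : ℕ} (A : Matrix (Fin n) (Fin n) BH) : 0 ≤ N A :=
  Finset.sum_nonneg fun _ _ => Finset.sum_nonneg fun _ _ => norm_nonneg _

lemma N_mul {n : ℕ} (A B : Matrix (Fin n) (Fin n) BH) : N (A * B) ≤ N A * N B := by
  have h1 : N (A * B) ≤ ∑ i, ∑ j, ∑ k, ‖A i k‖ * ‖B k j‖ := by
    refine Finset.sum_le_sum fun i _ => Finset.sum_le_sum fun j _ => ?_
    rw [Matrix.mul_apply]
    exact (norm_sum_le _ _).trans (Finset.sum_le_sum fun k _ => norm_mul_le _ _)
  have h2 : ∑ i, ∑ j, ∑ k, ‖A i k‖ * ‖B k j‖ = ∑ i, ∑ k, ‖A i k‖ * ∑ j, ‖B k j‖ := by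
    refine Finset.sum_congr rfl fun i _ => ?_
    rw [Finset.sum_comm]
    exact Finset.sum_congr rfl fun k _ => (Finset.mul_sum _ _ _).symm
  have h3 : ∀ k, ∑ j, ‖B k j‖ ≤ N B := fun k =>
    Finset.single_le_sum (f := fun k => ∑ j, ‖B k j‖)
      (fun _ _ => Finset.sum_nonneg fun _ _ => norm_nonneg _) (Finset.mem_univ k)
  calc N (A * B) ≤ ∑ i, ∑ k, ‖A i k‖ * ∑ j, ‖B k j‖ := h1.trans h2.le
    _ ≤ ∑ i, ∑ k, ‖A i k‖ * N B :=
        Finset.sum_le_sum fun i _ => Finset.sum_le_sum fun k _ =>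
          mul_le_mul_of_nonneg_left (h3 k) (norm_nonneg _)
    _ = N A * N B := by
        simp only [N, Finset.sum_mul]

lemma N_eq_zero {n : ℕ} {A : Matrix (Fin n) (Fin n) BH} (h : N A = 0) : A = 0 := by
  ext1 i j
  have h1 := (Finset.sum_eq_zero_iff_of_nonneg
    (fun i _ => Finset.sum_nonneg fun j _ => norm_nonneg (A i j))).1 h i (Finset.mem_univ _)
  have h2 := (Finset.sum_eq_zero_iff_of_nonneg (fun j _ => norm_nonneg (A i j))).1 h1 j
    (Finset.mem_univ _)
  exact norm_eq_zero.1 h2

/-- an idempotent matrix is zero or has norm at least one -/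
lemma N_idem {n : ℕ} {A : Matrix (Fin n) (Fin n) BH} (h : A * A = A) (h1 : N A < 1) : N A = 0 := by
  have h2 := N_mul A A
  rw [h] at h2
  have h3 := N_nonneg A
  by_contra h4
  have h5 : 0 < N A := lt_of_le_of_ne h3 (Ne.symm h4)
  nlinarith

/-- the matrix of the values at `t` -/
def at' {n : ℕ} (t : unitInterval) (v : Matrix (Fin n) (Fin n) CA) : Matrix (Fin n) (Fin n) BH :=
  v.map (ev t)

lemma ev_one (t : unitInterval) : ev t 1 = 1 := rfl

lemma at_mul {n : ℕ} (t : unitInterval) (v w : Matrix (Fin n) (Fin n) CA) :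
    at' t (v * w) = at' t v * at' t w := by
  ext1 i j
  show ev t ((v * w) i j) = (at' t v * at' t w) i j
  rw [Matrix.mul_apply, Matrix.mul_apply, map_sum]
  exact Finset.sum_congr rfl fun k _ => map_mul _ _ _

lemma at_star {n : ℕ} (t : unitInterval) (v : Matrix (Fin n) (Fin n) CA) :
    at' t (star v) = star (at' t v) := by
  ext1 i j
  rfl

lemma at_one {n : ℕ} (t : unitInterval) : at' t (1 : Matrix (Fin n) (Fin n) CA) = 1 := by
  ext1 i j
  show ev t ((1 : Matrix (Fin n) (Fin n) CA) i j) = (1 : Matrix (Fin n) (Fin n) BH) i j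
  by_cases h : i = j
  · subst h
    rw [Matrix.one_apply_eq, Matrix.one_apply_eq, ev_one]
  · rw [Matrix.one_apply_ne h, Matrix.one_apply_ne h, map_zero]

lemma at_ext {n : ℕ} {v w : Matrix (Fin n) (Fin n) CA} (h : ∀ t, at' t v = at' t w) : v = w := by
  ext1 i j
  exact CA_ext fun t => congrFun (congrFun (h t) i) j

/-- isometric scalar matrices are unitary -/
lemma scalar_case {n : ℕ} (V : Matrix (Fin n) (Fin n) BH)
    (h : ∀ i j, ∃ c : ℂ, V i j = c • (1 : BH)) (hV : star V * V = 1) : V * star V = 1 := by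
  choose c hc using h
  have hn : Nontrivial BH := by
    refine ⟨1, 0, ?_⟩
    intro h1
    have h2 := congrArg (fun S : BH => S (bas 0)) h1
    have h3 : bas 0 = 0 := h2
    have h4 := bas.orthonormal.1 0
    rw [h3, norm_zero] at h4
    exact zero_ne_one h4
  have e1 : V = (Matrix.of c).map (algebraMap ℂ BH) := by
    ext1 i j
    rw [hc i j, Matrix.map_apply, Algebra.algebraMap_eq_smul_one]
    rfl
  have e2 : star V = (star (Matrix.of c)).map (algebraMap ℂ BH) := by
    ext1 i j
    show star (V j i) = algebraMap ℂ BH (star (c j i))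
    rw [hc j i, Algebra.algebraMap_eq_smul_one, star_smul, star_one]
  have e3 : ∀ A B : Matrix (Fin n) (Fin n) ℂ, (A * B).map (algebraMap ℂ BH) =
      A.map (algebraMap ℂ BH) * B.map (algebraMap ℂ BH) := fun A B => Matrix.map_mul
  have e4 : (1 : Matrix (Fin n) (Fin n) ℂ).map (algebraMap ℂ BH) = 1 :=
    Matrix.map_one _ (map_zero _) (map_one _)
  have hinj : Function.Injective (algebraMap ℂ BH) := (algebraMap ℂ BH).injective
  have e5 : star (Matrix.of c) * Matrix.of c = 1 := by
    apply Matrix.map_injective hinj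
    beta_reduce
    rw [e3, e4, ← e1, ← e2, hV]
  have e6 : Matrix.of c * star (Matrix.of c) = 1 := mul_eq_one_comm.1 e5
  rw [e2]
  conv_lhs => rw [e1]
  rw [← e3, e6, e4]

/-- the counterexample is stably finite -/
theorem stablyFinite_CA : IsStablyFinite CA := by
  intro n v hv
  let P : unitInterval → Matrix (Fin n) (Fin n) BH := fun t => 1 - at' t v * star (at' t v)
  have h1 : ∀ t, star (at' t v) * at' t v = 1 := by
    intro t
    rw [← at_star, ← at_mul, hv, at_one]
  have hP : ∀ t, P t * P t = P t := by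
    intro t
    have e : at' t v * star (at' t v) * (at' t v * star (at' t v)) =
        at' t v * star (at' t v) := by
      rw [mul_assoc, ← mul_assoc (star (at' t v)), h1, one_mul]
    show (1 - at' t v * star (at' t v)) * (1 - at' t v * star (at' t v)) =
      1 - at' t v * star (at' t v)
    rw [sub_mul, one_mul, mul_sub, mul_one, e, sub_self, sub_zero]
  have hcont : Continuous fun t => N (P t) := by
    refine continuous_finsetSum _ fun i _ => continuous_finsetSum _ fun j _ => ?_
    apply Continuous.norm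
    have e : ∀ t, P t i j = (1 : Matrix (Fin n) (Fin n) BH) i j -
        ∑ k, ev t (v i k) * star (ev t (v j k)) := by
      intro t
      show (1 : Matrix (Fin n) (Fin n) BH) i j - (at' t v * star (at' t v)) i j = _
      rw [Matrix.mul_apply]
      rfl
    simp only [e]
    refine continuous_const.sub (continuous_finsetSum _ fun k _ => ?_)
    exact ((v i k : CB).continuous).mul ((v j k : CB).continuous.star)
  have h0 : N (P 0) = 0 := by
    have e : at' 0 v * star (at' 0 v) = 1 := by
      refine scalar_case _ (fun i j => ?_) (h1 0)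
      exact (v i j).2.2
    have e2 : P 0 = 0 := by
      show 1 - at' 0 v * star (at' 0 v) = 0
      rw [e, sub_self]
    rw [e2]
    simp [N]
  have hall : ∀ t, N (P t) = 0 := by
    intro t
    by_contra ht
    have ht1 : 1 ≤ N (P t) := by
      by_contra h2
      rw [not_le] at h2
      exact ht (N_idem (hP t) h2)
    obtain ⟨r, hr⟩ := mem_range_of_exists_le_of_exists_ge hcont
      (c := (1 / 2 : ℝ)) ⟨0, by rw [h0]; norm_num⟩ ⟨t, by linarith⟩
    have hr' : N (P r) = 1 / 2 := hr
    have := N_idem (hP r) (by rw [hr']; norm_num)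
    rw [hr'] at this
    norm_num at this
  apply at_ext
  intro t
  have h2 := N_eq_zero (hall t)
  have h3 : 1 - at' t v * star (at' t v) = 0 := h2
  rw [at_mul, at_star, at_one]
  exact (sub_eq_zero.1 h3).symm

/-! ### No approximation by algebras of type I -/

/-- the identity function of the interval -/
def idf : C(unitInterval, ℝ) := ⟨fun t => (t : ℝ), continuous_subtype_val⟩

lemma s_mem_O2 (b : Bool) : s b ∈ O2 :=
  StarSubalgebra.le_topologicalClosure _ (StarAlgebra.subset_adjoin _ _ ⟨b, rfl⟩)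

/-- the function `t ↦ t s_b` -/
def xx (b : Bool) : CA := ⟨el idf (s b), el_mem (s_mem_O2 b) rfl⟩

lemma ev_xx (b : Bool) : ev 1 (xx b) = s b := by
  show (((1 : unitInterval) : ℝ) : ℂ) • s b = s b
  simp

lemma norm_ev_le (t : unitInterval) (f : CA) : ‖ev t f‖ ≤ ‖f‖ :=
  ContinuousMap.norm_coe_le_norm (f : CB) t

/-- the closure of the values at `1` -/
def DD (B : NonUnitalStarSubalgebra ℂ CA) : NonUnitalStarSubalgebra ℂ BH :=
  (B.map (ev 1)).topologicalClosure

lemma ev_mem_DD {B : NonUnitalStarSubalgebra ℂ CA} {f : CA} (hf : f ∈ B) : ev 1 f ∈ DD B :=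
  NonUnitalStarSubalgebra.le_topologicalClosure _ ⟨f, hf, rfl⟩

lemma norm_s (b : Bool) : ‖s b‖ ≤ 1 := by
  have h1 : ‖s b‖ * ‖s b‖ ≤ 1 := by
    rw [← CStarRing.norm_star_mul_self, star_s_mul_s_self]
    exact ContinuousLinearMap.norm_id_le
  nlinarith [norm_nonneg (s b)]

section close

variable {B : NonUnitalStarSubalgebra ℂ CA} {y : Bool → CA} (hy : ∀ b, y b ∈ B)
  (hxy : ∀ b, ‖xx b - y b‖ < 1 / 20)

include hxy in
lemma close_s (b : Bool) : ‖ev 1 (y b) - s b‖ ≤ 1 / 20 := by
  rw [← ev_xx, ← map_sub, ← neg_sub, map_neg, norm_neg]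
  exact (norm_ev_le _ _).trans (hxy b).le

include hxy in
lemma close_mul (b : Bool) : ‖star (ev 1 (y b)) * ev 1 (y b) - 1‖ ≤ 1 / 9 := by
  have h1 := close_s hxy b
  have h2 := norm_s b
  have h3 : ‖ev 1 (y b)‖ ≤ 1 + 1 / 20 := by
    calc ‖ev 1 (y b)‖ = ‖(ev 1 (y b) - s b) + s b‖ := by rw [sub_add_cancel]
      _ ≤ _ := norm_add_le _ _
      _ ≤ _ := by linarith
  have h4 : star (ev 1 (y b)) * ev 1 (y b) - 1 =
      star (ev 1 (y b) - s b) * ev 1 (y b) + star (s b) * (ev 1 (y b) - s b) := by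
    rw [star_sub, sub_mul, mul_sub, star_s_mul_s_self]
    abel
  rw [h4]
  calc _ ≤ ‖star (ev 1 (y b) - s b) * ev 1 (y b)‖ + ‖star (s b) * (ev 1 (y b) - s b)‖ :=
        norm_add_le _ _
    _ ≤ ‖star (ev 1 (y b) - s b)‖ * ‖ev 1 (y b)‖ + ‖star (s b)‖ * ‖ev 1 (y b) - s b‖ :=
        add_le_add (norm_mul_le _ _) (norm_mul_le _ _)
    _ ≤ 1 / 20 * (1 + 1 / 20) + 1 * (1 / 20) := by
        rw [norm_star, norm_star]
        gcongr
    _ ≤ 1 / 9 := by norm_num

include hxy in
lemma close_mul' (b : Bool) :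
    ‖ev 1 (y b) * star (ev 1 (y b)) - s b * star (s b)‖ ≤ 1 / 9 := by
  have h1 := close_s hxy b
  have h2 := norm_s b
  have h3 : ‖ev 1 (y b)‖ ≤ 1 + 1 / 20 := by
    calc ‖ev 1 (y b)‖ = ‖(ev 1 (y b) - s b) + s b‖ := by rw [sub_add_cancel]
      _ ≤ _ := norm_add_le _ _
      _ ≤ _ := by linarith
  have h4 : ev 1 (y b) * star (ev 1 (y b)) - s b * star (s b) =
      (ev 1 (y b) - s b) * star (ev 1 (y b)) + s b * star (ev 1 (y b) - s b) := by
    rw [star_sub, sub_mul, mul_sub]
    abel
  rw [h4]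
  calc _ ≤ ‖(ev 1 (y b) - s b) * star (ev 1 (y b))‖ + ‖s b * star (ev 1 (y b) - s b)‖ :=
        norm_add_le _ _
    _ ≤ ‖ev 1 (y b) - s b‖ * ‖star (ev 1 (y b))‖ + ‖s b‖ * ‖star (ev 1 (y b) - s b)‖ :=
        add_le_add (norm_mul_le _ _) (norm_mul_le _ _)
    _ ≤ 1 / 20 * (1 + 1 / 20) + 1 * (1 / 20) := by
        rw [norm_star, norm_star]
        gcongr
    _ ≤ 1 / 9 := by norm_num

include hxy in
lemma close_sum : ‖ev 1 (y false) * star (ev 1 (y false)) +
    ev 1 (y true) * star (ev 1 (y true)) - 1‖ ≤ 1 / 4 := by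
  have h1 := close_mul' hxy false
  have h2 := close_mul' hxy true
  have h3 : ev 1 (y false) * star (ev 1 (y false)) + ev 1 (y true) * star (ev 1 (y true)) - 1 =
      (ev 1 (y false) * star (ev 1 (y false)) - s false * star (s false)) +
      (ev 1 (y true) * star (ev 1 (y true)) - s true * star (s true)) := by
    rw [← s_sum]
    abel
  rw [h3]
  refine (norm_add_le _ _).trans ?_
  linarith

include hy hxy in
lemma one_mem_DD : (1 : BH) ∈ DD B := by
  obtain ⟨e, he⟩ : ∃ e : CA, e = star (y false) * y false := ⟨_, rfl⟩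
  have heB : e ∈ B := by
    rw [he]
    exact mul_mem (star_mem (hy _)) (hy _)
  have hE : ‖1 - ev 1 e‖ ≤ 1 / 9 := by
    rw [← norm_neg, neg_sub, he, map_mul, map_star]
    exact close_mul hxy false
  have hb : ∀ n : ℕ, ∃ b ∈ B, ev 1 b = 1 - (1 - ev 1 e) ^ n := by
    intro n
    induction n with
    | zero => exact ⟨0, B.zero_mem, by rw [pow_zero, sub_self, map_zero]⟩
    | succ n ih =>
      obtain ⟨b, hb, hb1⟩ := ih
      refine ⟨b + e - b * e, sub_mem (add_mem hb heB) (mul_mem hb heB), ?_⟩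
      rw [map_sub, map_add, map_mul, hb1, pow_succ]
      noncomm_ring
  have hlim : Tendsto (fun n : ℕ => 1 - (1 - ev 1 e) ^ n) atTop (𝓝 (1 - 0)) := by
    refine tendsto_const_nhds.sub ?_
    exact tendsto_pow_atTop_nhds_zero_of_norm_lt_one (lt_of_le_of_lt hE (by norm_num))
  rw [sub_zero] at hlim
  refine mem_closure_of_tendsto hlim (Eventually.of_forall fun n => ?_)
  obtain ⟨b, hb, hb1⟩ := hb n
  exact ⟨b, hb, hb1⟩

end close

/-- the counterexample is not locally approximable by type I algebras -/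
theorem not_locallyTypeI_CA : ¬ LocallyTypeI CA := by
  intro h
  classical
  obtain ⟨B, hBc, hBI, hB⟩ := h (Finset.univ.image xx) (1 / 20) (by norm_num)
  have h1 : ∀ b : Bool, ∃ y ∈ B, ‖xx b - y‖ < 1 / 20 := fun b =>
    hB _ (Finset.mem_image.2 ⟨b, Finset.mem_univ _, rfl⟩)
  choose y hy hxy using h1
  let D : StarSubalgebra ℂ BH := (DD B).toStarSubalgebra (one_mem_DD hy hxy)
  have hDc : IsClosed (D : Set BH) := NonUnitalStarSubalgebra.isClosed_topologicalClosure _
  letI : CStarAlgebra D := StarSubalgebra.cstarAlgebra D (h_closed := hDc)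
  have hnt : Nontrivial D := by
    refine ⟨1, 0, ?_⟩
    intro h1
    have h1' : (1 : BH) = 0 := congrArg Subtype.val h1
    have h2 := congrArg (fun S : BH => S (bas 0)) h1'
    have h3 : bas 0 = 0 := h2
    have h4 := bas.orthonormal.1 0
    rw [h3, norm_zero] at h4
    exact zero_ne_one h4
  -- the map `B → D`
  let q : B →⋆ₙₐ[ℂ] D :=
    { toFun := fun f => ⟨ev 1 (f : CA), ev_mem_DD f.2⟩
      map_smul' := fun _ _ => rfl
      map_zero' := rfl
      map_add' := fun _ _ => rfl
      map_mul' := fun _ _ => rfl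
      map_star' := fun _ => rfl }
  have hqd : ∀ d : D, d ∈ closure (Set.range q) := by
    intro d
    rw [mem_closure_iff_seq_limit]
    have hd : (d : BH) ∈ closure ((B.map (ev 1) : NonUnitalStarSubalgebra ℂ BH) : Set BH) := d.2
    rw [mem_closure_iff_seq_limit] at hd
    obtain ⟨u, hu, hul⟩ := hd
    choose w hw hwu using hu
    refine ⟨fun n => q ⟨w n, hw n⟩, fun n => ⟨_, rfl⟩, ?_⟩
    rw [tendsto_subtype_rng]
    refine hul.congr fun n => ?_
    exact (hwu n).symm
  have hDI : IsTypeI D := by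
    intro K _ _ _ π hπ T hT
    have hπc : Continuous π := by
      have : ∀ x : D, ‖π x‖ ≤ 1 * ‖x‖ := fun x => by
        rw [one_mul]; exact NonUnitalStarAlgHom.norm_apply_le π x
      exact AddMonoidHomClass.continuous_of_bound π 1 this
    suffices hirr : IsIrreducible (π.comp q) by
      obtain ⟨b, hb⟩ := hBI K (π.comp q) hirr T hT
      exact ⟨q b, hb⟩
    refine ⟨?_, ?_⟩
    · intro h0
      apply hπ.1
      ext1 d
      have h2 : IsClosed {d : D | π d = 0} := isClosed_eq hπc continuous_const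
      have h3 : closure (Set.range q) ⊆ {d : D | π d = 0} := by
        refine closure_minimal ?_ h2
        rintro _ ⟨b, rfl⟩
        exact congrArg (fun f => f b) h0
      exact h3 (hqd d)
    · intro U hU hinv
      refine hπ.2 U hU ?_
      intro d x hx
      have h2 : IsClosed {d : D | π d x ∈ U} := by
        have h4 : Continuous fun d : D => π d x :=
          (ContinuousLinearMap.apply ℂ K x).continuous.comp hπc
        exact hU.preimage h4
      have h3 : closure (Set.range q) ⊆ {d : D | π d x ∈ U} := by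
        refine closure_minimal ?_ h2
        rintro _ ⟨b, rfl⟩
        exact hinv b x hx
      exact h3 (hqd d)
  refine no_cuntz hDI (q ⟨y false, hy false⟩) (q ⟨y true, hy true⟩) ?_ ?_ ?_
  · exact close_mul hxy false
  · exact close_mul hxy true
  · exact close_sum hxy

end Pool.Agent.U841.TI
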