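import Pool.Agent.TH496.EI_Irr
import Pool.Agent.W658.TIDefs

/-!
# Unital C*-algebras of type I have finite-dimensional representations

Let `D` be a nonzero unital C*-algebra of type I. A maximal two-sided ideal `M` of `D` has distance
one from the unit, so there are states that vanish on `M`; an extreme point `φ` of the set of these
states is a pure state, its GNS representation is irreducible and its kernel is `M`. Its image
contains the compact operators, and the maximality of `M` shows that the identity is compact.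

The GNS part is copied from `Pool/Agent/TH496/EI_Irr.lean` (there for a special state).
-/

set_option autoImplicit false

open scoped ComplexOrder InnerProductSpace
open UniformSpace Completion

noncomputable section

namespace Pool.Agent.U841.TI

open Pool.Agent.W658.Irrep Pool.Agent.TH496.EIirr Pool.Agent.W658.TypeI

universe u

section gns

variable {C : Type u} [CStarAlgebra C]

/-- The GNS representation of an extreme state. -/
theorem rep_of [Nontrivial C] {φ : C → ℂ} (hφ : φ ∈ Set.extremePoints ℝ (StY (0 : C))) :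
    ∃ (K : Type u) (_ : NormedAddCommGroup K)
    (_ : InnerProductSpace ℂ K) (_ : CompleteSpace K) (ρ : C →⋆ₙₐ[ℂ] (K →L[ℂ] K)) (ξ : K),
    ρ 1 = 1 ∧ ‖ξ‖ = 1 ∧
    (∀ x y : K, (∀ a : C, ⟪x, ρ a ξ⟫_ℂ = ⟪y, ρ a ξ⟫_ℂ) → x = y) ∧
    (∀ a, φ a = ⟪ξ, ρ a ξ⟫_ℂ) := by
  obtain ⟨⟨hadd, hsm, hpos, hone, hn, hY⟩, hext⟩ := mem_extremePoints.mp hφ
  let _ := CStarAlgebra.spectralOrder C
  have _ := CStarAlgebra.spectralOrderedRing C
  let f : C →ₚ[ℂ] ℂ := PositiveLinearMap.mk₀
    ({ toFun := φ, map_add' := hadd, map_smul' := fun c a => hsm c a } : C →ₗ[ℂ] ℂ) (by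
      intro x hx
      obtain ⟨y, rfl⟩ := CStarAlgebra.nonneg_iff_eq_star_mul_self.1 hx
      exact hpos y)
  have hf : ∀ x, f x = φ x := fun x => rfl
  let ρ : C →⋆ₙₐ[ℂ] (f.GNS →L[ℂ] f.GNS) := f.gnsNonUnitalStarAlgHom
  let ξ : f.GNS := (f.toPreGNS (1 : C) : f.GNS)
  have hρ : ∀ a b : C, ρ a (f.toPreGNS b : f.GNS) = (f.toPreGNS (a * b) : f.GNS) := by
    intro a b
    show f.gnsNonUnitalStarAlgHom a (f.toPreGNS b : f.GNS) = _
    rw [PositiveLinearMap.gnsNonUnitalStarAlgHom_apply_coe]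
    rfl
  have hin : ∀ a b : C, ⟪(f.toPreGNS a : f.GNS), (f.toPreGNS b : f.GNS)⟫_ℂ = φ (star a * b) := by
    intro a b
    rw [UniformSpace.Completion.inner_coe, PositiveLinearMap.preGNS_inner_def]
    rfl
  have hρξ : ∀ a, ρ a ξ = (f.toPreGNS a : f.GNS) := by
    intro a
    rw [hρ, mul_one]
  have hdense : ∀ x y : f.GNS, (∀ a : C, ⟪x, ρ a ξ⟫_ℂ = ⟪y, ρ a ξ⟫_ℂ) → x = y := by
    intro x y h
    have h2 : ∀ z : f.GNS, ⟪x, z⟫_ℂ = ⟪y, z⟫_ℂ := by
      intro z
      induction z using UniformSpace.Completion.induction_on with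
      | hp => exact isClosed_eq (by fun_prop) (by fun_prop)
      | ih z =>
        have := h (f.ofPreGNS z)
        rw [hρξ] at this
        exact this
    exact ext_inner_right ℂ h2
  have hρ1 : ρ 1 = 1 := by
    ext z
    induction z using UniformSpace.Completion.induction_on with
    | hp => exact isClosed_eq (by fun_prop) (by fun_prop)
    | ih z =>
      have := hρ 1 (f.ofPreGNS z)
      rw [one_mul] at this
      exact this
  have hξ : ‖ξ‖ = 1 := by
    have h2 := hin 1 1
    rw [star_one, one_mul, hone] at h2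
    have h3 : ⟪ξ, ξ⟫_ℂ = 1 := h2
    rw [inner_self_eq_norm_sq_to_K] at h3
    have h4 : ((‖ξ‖ ^ 2 : ℝ) : ℂ) = ((1 : ℝ) : ℂ) := by
      push_cast
      exact h3
    have h5 : ‖ξ‖ ^ 2 = 1 := Complex.ofReal_injective h4
    nlinarith [norm_nonneg ξ]
  have hφξ : ∀ a, φ a = ⟪ξ, ρ a ξ⟫_ℂ := by
    intro a
    rw [hρξ, hin, star_one, one_mul]
  exact ⟨f.GNS, inferInstance, inferInstance, inferInstance, ρ, ξ, hρ1, hξ, hdense, hφξ⟩

end gns

/-! ### Two-sided ideals -/

variable {C : Type u} [CStarAlgebra C]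

/-- a proper two-sided ideal -/
structure PI (M : Set C) : Prop where
  zero : (0 : C) ∈ M
  add : ∀ x ∈ M, ∀ y ∈ M, x + y ∈ M
  left : ∀ a : C, ∀ x ∈ M, a * x ∈ M
  right : ∀ a : C, ∀ x ∈ M, x * a ∈ M
  one : (1 : C) ∉ M

lemma PI.smul {M : Set C} (hM : PI M) (c : ℂ) {x : C} (hx : x ∈ M) : c • x ∈ M := by
  have := hM.left (c • (1 : C)) x hx
  rwa [smul_mul_assoc, one_mul] at this

/-- the complex subspace of a proper ideal -/
def PI.sub {M : Set C} (hM : PI M) : Submodule ℂ C where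
  carrier := M
  zero_mem' := hM.zero
  add_mem' := fun {x y} hx hy => hM.add x hx y hy
  smul_mem' := fun c x hx => hM.smul c hx

lemma PI.norm_ge {M : Set C} (hM : PI M) {x : C} (hx : x ∈ M) : 1 ≤ ‖1 - x‖ := by
  by_contra h
  rw [not_le] at h
  have hu : IsUnit x := by
    have h1 : IsUnit (1 - (1 - x)) := isUnit_one_sub_of_norm_lt_one h
    rwa [sub_sub_cancel] at h1
  obtain ⟨u, rfl⟩ := hu
  apply hM.one
  have := hM.left (↑u⁻¹) _ hx
  rwa [Units.inv_mul] at this

/-- there are states that vanish on a proper ideal -/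
lemma exists_state [Nontrivial C] {M : Set C} (hM : PI M) :
    ∃ f ∈ StY (0 : C), ∀ m ∈ M, f m = 0 := by
  let S : Submodule ℂ C := hM.sub.topologicalClosure
  have hSM : M ⊆ S := hM.sub.le_topologicalClosure
  have hS1 : ∀ x ∈ S, 1 ≤ ‖1 - x‖ := by
    intro x hx
    have h1 : IsClosed {x : C | 1 ≤ ‖1 - x‖} :=
      isClosed_le continuous_const (continuous_const.sub continuous_id).norm
    have h2 : (S : Set C) ⊆ {x : C | 1 ≤ ‖1 - x‖} := by
      rw [show (S : Set C) = closure M from rfl]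
      exact closure_minimal (fun y hy => hM.norm_ge hy) h1
    exact h2 hx
  haveI : IsClosed (S : Set C) := hM.sub.isClosed_topologicalClosure
  have hnorm : ‖(Submodule.Quotient.mk (1 : C) : C ⧸ S)‖ = 1 := by
    apply le_antisymm
    · exact (Submodule.Quotient.norm_mk_le S 1).trans CStarRing.norm_one.le
    · by_contra h
      rw [not_le] at h
      obtain ⟨y, hy, hy1⟩ := Submodule.Quotient.norm_mk_lt (S := S) (Submodule.Quotient.mk 1)
        (sub_pos.2 h)
      rw [Submodule.Quotient.eq] at hy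
      have h2 := hS1 (-(y - 1)) (S.neg_mem hy)
      have h3 : (1 : C) - -(y - 1) = y := by abel
      rw [h3] at h2
      linarith
  obtain ⟨g, hg, hg1⟩ := exists_dual_vector ℂ (Submodule.Quotient.mk (1 : C) : C ⧸ S) (by
    intro h
    rw [h] at hnorm
    exact zero_ne_one hnorm)
  let l : C →L[ℂ] ℂ := g.comp S.mkQL
  have hl : ∀ x, l x = g (Submodule.Quotient.mk x) := fun x => rfl
  have hlx : ∀ x, ‖l x‖ ≤ ‖x‖ := by
    intro x
    have h1 := g.le_opNorm (Submodule.Quotient.mk x : C ⧸ S)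
    rw [hg, one_mul] at h1
    exact h1.trans (Submodule.Quotient.norm_mk_le S x)
  have c1 : l 1 = 1 := by
    rw [hl, hg1, hnorm]
    norm_num
  have hl2 : ‖l‖ = 1 := by
    apply le_antisymm
    · exact l.opNorm_le_bound zero_le_one fun x => by rw [one_mul]; exact hlx x
    · have := l.le_opNorm 1
      rw [c1, norm_one, CStarRing.norm_one, mul_one] at this
      exact this
  refine ⟨l, ⟨fun a b => map_add l a b, fun c a => by rw [map_smul, smul_eq_mul],
    fun a => pos_of_norm l hl2 c1 a, c1, hlx, ?_⟩, ?_⟩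
  · rw [mul_zero, map_zero, norm_zero, Complex.zero_re]
    norm_num
  · intro m hm
    rw [hl, (Submodule.Quotient.mk_eq_zero S).2 (hSM hm), map_zero]

/-- a maximal proper ideal -/
lemma exists_max [Nontrivial C] : ∃ M : Set C, PI M ∧ ∀ N : Set C, PI N → M ⊆ N → N ⊆ M := by
  have h0 : PI ({0} : Set C) := by
    refine ⟨rfl, ?_, ?_, ?_, ?_⟩
    · rintro x rfl y rfl
      exact add_zero _
    · rintro a x rfl
      exact mul_zero _
    · rintro a x rfl
      exact zero_mul _
    · exact one_ne_zero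
  obtain ⟨M, hM⟩ := zorn_subset_nonempty {N : Set C | PI N} (by
    intro c hc hch hne
    refine ⟨⋃₀ c, ?_, fun s hs => Set.subset_sUnion_of_mem hs⟩
    obtain ⟨s0, hs0⟩ := hne
    refine ⟨⟨s0, hs0, (hc hs0).zero⟩, ?_, ?_, ?_, ?_⟩
    · rintro x ⟨s, hs, hx⟩ y ⟨t, ht, hy⟩
      rcases hch.total hs ht with h | h
      · exact ⟨t, ht, (hc ht).add x (h hx) y hy⟩
      · exact ⟨s, hs, (hc hs).add x hx y (h hy)⟩
    · rintro a x ⟨s, hs, hx⟩
      exact ⟨s, hs, (hc hs).left a x hx⟩
    · rintro a x ⟨s, hs, hx⟩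
      exact ⟨s, hs, (hc hs).right a x hx⟩
    · rintro ⟨s, hs, hx⟩
      exact (hc hs).one hx) {0} h0
  exact ⟨M, hM.2.1, fun N hN h => hM.2.2 hN h⟩

/-- the states which vanish on `M` -/
def StM (M : Set C) : Set (C → ℂ) := {f | f ∈ StY (0 : C) ∧ ∀ m ∈ M, f m = 0}

lemma StM_compact (M : Set C) : IsCompact (StM M) := by
  refine (StY_compact (0 : C)).of_isClosed_subset ?_ fun f hf => hf.1
  have h : StM M = StY (0 : C) ∩ ⋂ m ∈ M, {f : C → ℂ | f m = 0} := by
    ext f
    simp only [StM, Set.mem_ofPred_eq, Set.mem_inter_iff, Set.mem_iInter]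
  rw [h]
  refine (StY_compact (0 : C)).isClosed.inter ?_
  exact isClosed_biInter fun m _ => isClosed_eq (continuous_apply m) continuous_const

/-- the states vanishing on an ideal are a face -/
lemma extreme_StM {M : Set C} (hM : PI M) {φ : C → ℂ} (hφ : φ ∈ Set.extremePoints ℝ (StM M)) :
    φ ∈ Set.extremePoints ℝ (StY (0 : C)) := by
  obtain ⟨⟨h1, h2⟩, hext⟩ := mem_extremePoints.mp hφ
  refine mem_extremePoints.mpr ⟨h1, ?_⟩
  intro f hf g hg hseg
  refine hext f ⟨hf, ?_⟩ g ⟨hg, ?_⟩ hseg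
  · intro m hm
    obtain ⟨a, b, ha, hb, hab, hfg⟩ := hseg
    have h3 : φ (star m * m) = 0 := h2 _ (hM.left _ _ hm)
    rw [← hfg] at h3
    have h4 : (a : ℂ) * f (star m * m) + (b : ℂ) * g (star m * m) = 0 := by
      simpa [Pi.add_apply, Pi.smul_apply, Complex.real_smul] using h3
    have h5 := (Complex.le_def.1 (hf.2.2.1 m)).1
    have h6 := (Complex.le_def.1 (hg.2.2.1 m)).1
    have h7 := congrArg Complex.re h4
    rw [Complex.add_re, Complex.re_ofReal_mul, Complex.re_ofReal_mul, Complex.zero_re] at h7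
    rw [Complex.zero_re] at h5 h6
    have h8 : (f (star m * m)).re ≤ 0 := by
      have := mul_nonneg hb.le h6
      by_contra h9
      rw [not_le] at h9
      have := mul_pos ha h9
      linarith
    have h9 := cs f hf.1 hf.2.1 hf.2.2.1 hf.2.2.2.1 m
    have h10 : ‖f m‖ ^ 2 ≤ 0 := h9.trans h8
    have h11 : ‖f m‖ = 0 := by
      have := sq_nonneg ‖f m‖
      exact pow_eq_zero_iff (two_ne_zero) |>.mp (le_antisymm h10 this)
    exact norm_eq_zero.1 h11
  · intro m hm
    obtain ⟨a, b, ha, hb, hab, hfg⟩ := hseg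
    have h3 : φ (star m * m) = 0 := h2 _ (hM.left _ _ hm)
    rw [← hfg] at h3
    have h4 : (a : ℂ) * f (star m * m) + (b : ℂ) * g (star m * m) = 0 := by
      simpa [Pi.add_apply, Pi.smul_apply, Complex.real_smul] using h3
    have h5 := (Complex.le_def.1 (hf.2.2.1 m)).1
    have h6 := (Complex.le_def.1 (hg.2.2.1 m)).1
    have h7 := congrArg Complex.re h4
    rw [Complex.add_re, Complex.re_ofReal_mul, Complex.re_ofReal_mul, Complex.zero_re] at h7
    rw [Complex.zero_re] at h5 h6
    have h8 : (g (star m * m)).re ≤ 0 := by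
      have := mul_nonneg ha.le h5
      by_contra h9
      rw [not_le] at h9
      have := mul_pos hb h9
      linarith
    have h9 := cs g hg.1 hg.2.1 hg.2.2.1 hg.2.2.2.1 m
    have h10 : ‖g m‖ ^ 2 ≤ 0 := h9.trans h8
    have h11 : ‖g m‖ = 0 := by
      have := sq_nonneg ‖g m‖
      exact pow_eq_zero_iff (two_ne_zero) |>.mp (le_antisymm h10 this)
    exact norm_eq_zero.1 h11

end Pool.Agent.U841.TI
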